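import Mathlib

/-!
Sequences without `k` collinear points on their graph whose initial segments are covered by few
convex or concave arcs grow fast.
-/

namespace Pool.Agent.Results.MP_029ce3_co.ConvexArcs

open Finset

/-- The points `(n, a n)` with index `n` in `T` lie on one straight line of the plane. -/
def OnALine (a : ℕ → ℕ) (T : Finset ℕ) : Prop :=
  Collinear ℝ ((fun n : ℕ => (((n : ℝ), (a n : ℝ)) : ℝ × ℝ)) '' (T : Set ℕ))

/-- if `q * a n - p * n` is constant on `T` and `q ≠ 0`, the points are collinear -/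
lemma onALine_of_const (a : ℕ → ℕ) (T : Finset ℕ) (q p c : ℝ) (hq : q ≠ 0)
    (h : ∀ n ∈ T, q * (a n : ℝ) - p * n = c) : OnALine a T := by
  unfold OnALine
  rw [collinear_iff_exists_forall_eq_smul_vadd]
  refine ⟨(0, c / q), (1, p / q), ?_⟩
  rintro _ ⟨n, hn, rfl⟩
  refine ⟨n, ?_⟩
  have := h n (by simpa using hn)
  simp only [vadd_eq_add, Prod.smul_mk, smul_eq_mul, mul_one, Prod.mk_add_mk, add_zero,
    Prod.mk.injEq, true_and]
  field_simp
  linarith

/-- The points `(i, a i)` with `i ∈ S` lie on the graph of a convex function, or all on the graph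
of a concave function: slopes increase, or decrease, along every triple of indices of `S`. -/
def IsArc (a : ℕ → ℕ) (S : Finset ℕ) : Prop :=
  (∀ i ∈ S, ∀ j ∈ S, ∀ l ∈ S, i < j → j < l →
    ((a j : ℝ) - a i) / ((j : ℝ) - i) ≤ ((a l : ℝ) - a j) / ((l : ℝ) - j)) ∨
  (∀ i ∈ S, ∀ j ∈ S, ∀ l ∈ S, i < j → j < l →
    ((a l : ℝ) - a j) / ((l : ℝ) - j) ≤ ((a j : ℝ) - a i) / ((j : ℝ) - i))

/-- The indices `1, …, n` are covered by `T` convex or concave arcs. -/
def CoveredBy (a : ℕ → ℕ) (n T : ℕ) : Prop :=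
  ∃ S : Fin T → Finset ℕ, (∀ t, IsArc a (S t)) ∧ ∀ i, 1 ≤ i → i ≤ n → ∃ t, i ∈ S t

/-- `M` distinct vectors of positive integers with sums at most `X` and `Y` -/
lemma box (M X Y : ℕ) (x y : ℕ → ℕ) (hX : 1 ≤ X) (hY : 1 ≤ Y)
    (hx : ∀ m, m < M → 1 ≤ x m) (hy : ∀ m, m < M → 1 ≤ y m)
    (hsx : ∑ m ∈ Finset.range M, x m ≤ X) (hsy : ∑ m ∈ Finset.range M, y m ≤ Y)
    (hinj : ∀ m m', m < M → m' < M → x m = x m' → y m = y m' → m = m') :
    M ^ 3 ≤ 27 * X * Y := by
  classical
  have hbad : ∀ (z : ℕ → ℕ) (Z : ℕ), 1 ≤ Z → ∑ m ∈ Finset.range M, z m ≤ Z →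
      3 * ((Finset.range M).filter (fun m => ¬ M * z m ≤ 3 * Z)).card ≤ M := by
    intro z Z hZ hs
    set C := (Finset.range M).filter (fun m => ¬ M * z m ≤ 3 * Z) with hC
    have h1 : C.card * (3 * Z) ≤ ∑ m ∈ C, M * z m := by
      rw [← smul_eq_mul]
      apply Finset.card_nsmul_le_sum
      intro m hm
      rw [hC, Finset.mem_filter] at hm
      omega
    have h2 : ∑ m ∈ C, M * z m ≤ ∑ m ∈ Finset.range M, M * z m :=
      Finset.sum_le_sum_of_subset (Finset.filter_subset _ _)
    have h3 : ∑ m ∈ Finset.range M, M * z m ≤ M * Z := by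
      rw [← Finset.mul_sum]
      exact Nat.mul_le_mul_left _ hs
    have h4 : (3 * C.card) * Z ≤ M * Z := by
      calc (3 * C.card) * Z = C.card * (3 * Z) := by ring
        _ ≤ M * Z := h1.trans (h2.trans h3)
    exact Nat.le_of_mul_le_mul_right h4 hZ
  have hbx := hbad x X hX hsx
  have hby := hbad y Y hY hsy
  set G := (Finset.range M).filter (fun m => M * x m ≤ 3 * X ∧ M * y m ≤ 3 * Y) with hG
  have hcard : M ≤ 3 * G.card := by
    have h1 : Finset.range M ⊆ G ∪ ((Finset.range M).filter (fun m => ¬ M * x m ≤ 3 * X) ∪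
        (Finset.range M).filter (fun m => ¬ M * y m ≤ 3 * Y)) := by
      intro m hm
      simp only [hG, Finset.mem_union, Finset.mem_filter]
      tauto
    have h2 := (Finset.card_le_card h1).trans (Finset.card_union_le _ _)
    have h3 := Finset.card_union_le ((Finset.range M).filter (fun m => ¬ M * x m ≤ 3 * X))
        ((Finset.range M).filter (fun m => ¬ M * y m ≤ 3 * Y))
    rw [Finset.card_range] at h2
    omega
  rcases Nat.eq_zero_or_pos M with h0 | h0
  · subst h0; simp
  have hbox : G.card ≤ (3 * X / M) * (3 * Y / M) := by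
    have h1 : G.card ≤ (Finset.Icc 1 (3 * X / M) ×ˢ Finset.Icc 1 (3 * Y / M)).card := by
      apply Finset.card_le_card_of_injOn (fun m => (x m, y m))
      · intro m hm
        have hm' : m ∈ G := by simpa using hm
        rw [hG, Finset.mem_filter, Finset.mem_range] at hm'
        obtain ⟨hm1, hm2, hm3⟩ := hm'
        simp only [Finset.coe_product, Set.mem_prod, Finset.mem_coe, Finset.mem_Icc]
        refine ⟨⟨hx m hm1, ?_⟩, ⟨hy m hm1, ?_⟩⟩
        · rw [Nat.le_div_iff_mul_le h0]; linarith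
        · rw [Nat.le_div_iff_mul_le h0]; linarith
      · intro m hm m' hm' hmm
        have h2 : m ∈ G := by simpa using hm
        have h3 : m' ∈ G := by simpa using hm'
        rw [hG, Finset.mem_filter, Finset.mem_range] at h2 h3
        simp only [Prod.mk.injEq] at hmm
        exact hinj m m' h2.1 h3.1 hmm.1 hmm.2
    rw [Finset.card_product, Nat.card_Icc, Nat.card_Icc] at h1
    simpa using h1
  have e1 : M * (3 * X / M) ≤ 3 * X := Nat.mul_div_le _ _
  have e2 : M * (3 * Y / M) ≤ 3 * Y := Nat.mul_div_le _ _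
  calc M ^ 3 = M * (M * M) := by ring
    _ ≤ (3 * G.card) * (M * M) := Nat.mul_le_mul_right _ hcard
    _ ≤ (3 * ((3 * X / M) * (3 * Y / M))) * (M * M) :=
        Nat.mul_le_mul_right _ (Nat.mul_le_mul_left _ hbox)
    _ = 3 * ((M * (3 * X / M)) * (M * (3 * Y / M))) := by ring
    _ ≤ 3 * ((3 * X) * (3 * Y)) := Nat.mul_le_mul_left _ (Nat.mul_le_mul e1 e2)
    _ = 27 * X * Y := by ring

/-- an arc of `r + 1` points given by an increasing enumeration -/
lemma arc_core (k : ℕ) (hk : 1 ≤ k) (a : ℕ → ℕ) (hpos : ∀ n, 1 ≤ n → 1 ≤ a n)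
    (hmono : ∀ m n, 1 ≤ m → m < n → a m < a n)
    (hno : ¬ ∃ T : Finset ℕ, (∀ n ∈ T, 1 ≤ n) ∧ T.card = k ∧ OnALine a T)
    (n r : ℕ) (hn : 1 ≤ n) (σ : ℕ → ℕ) (hσ : ∀ i j, i < j → j ≤ r → σ i < σ j)
    (hσ1 : ∀ i, i ≤ r → 1 ≤ σ i) (hσn : σ r ≤ n) (s : ℕ → ℝ)
    (hs : ∀ i, s i = ((a (σ (i + 1)) : ℝ) - a (σ i)) / ((σ (i + 1) : ℝ) - σ i))
    (hP : ∀ i l j, i ≤ l → l ≤ j → j < r → s i = s j → s l = s i) :
    r ^ 3 ≤ k ^ 3 * (27 * n * a n) := by
  classical
  set M : ℕ := (r + k - 1) / k with hM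
  have hMr : r ≤ k * M := by
    have h1 : r + k - 1 < k * ((r + k - 1) / k + 1) := Nat.lt_mul_div_succ _ hk
    rw [← hM, mul_add, mul_one] at h1
    omega
  have hMlt : ∀ m, m < M → k * m < r := by
    intro m hm
    have h1 : k * M ≤ r + k - 1 := Nat.mul_div_le _ _
    have h2 : k * (m + 1) ≤ k * M := Nat.mul_le_mul_left _ hm
    rw [mul_add, mul_one] at h2
    omega
  -- far apart slopes are different
  have hfar : ∀ i j, i + k ≤ j → j < r → s i ≠ s j := by
    intro i j hij hjr heq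
    apply hno
    have hx0 : (0 : ℝ) < (σ (i + 1) : ℝ) - σ i := by
      have : (σ i : ℝ) < σ (i + 1) := by exact_mod_cast hσ i (i + 1) (by omega) (by omega)
      linarith
    have hline : ∀ t, t < k → ((σ (i + 1) : ℝ) - σ i) * (a (σ (i + t)) : ℝ) -
        ((a (σ (i + 1)) : ℝ) - a (σ i)) * σ (i + t) =
        ((σ (i + 1) : ℝ) - σ i) * (a (σ i) : ℝ) - ((a (σ (i + 1)) : ℝ) - a (σ i)) * σ i := by
      intro t
      induction t with
      | zero => intro _; simp
      | succ t ih =>
        intro ht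
        have h1 := ih (by omega)
        have h2 := hP i (i + t) j (by omega) (by omega) hjr heq
        rw [hs, hs] at h2
        have hx1 : (0 : ℝ) < (σ (i + t + 1) : ℝ) - σ (i + t) := by
          have : (σ (i + t) : ℝ) < σ (i + t + 1) := by
            exact_mod_cast hσ (i + t) (i + t + 1) (by omega) (by omega)
          linarith
        rw [div_eq_div_iff hx1.ne' hx0.ne'] at h2
        have e : i + (t + 1) = i + t + 1 := by ring
        rw [e]
        linarith
    refine ⟨(Finset.range k).image (fun t => σ (i + t)), ?_, ?_, ?_⟩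
    · intro z hz
      rw [Finset.mem_image] at hz
      obtain ⟨t, ht, rfl⟩ := hz
      rw [Finset.mem_range] at ht
      exact hσ1 _ (by omega)
    · rw [Finset.card_image_of_injOn, Finset.card_range]
      intro t ht t' ht' htt
      have h1 : t < k := by simpa using ht
      have h2 : t' < k := by simpa using ht'
      simp only at htt
      rcases lt_trichotomy t t' with h | h | h
      · have := hσ (i + t) (i + t') (by omega) (by omega)
        omega
      · exact h
      · have := hσ (i + t') (i + t) (by omega) (by omega)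
        omega
    · apply onALine_of_const a _ ((σ (i + 1) : ℝ) - σ i) ((a (σ (i + 1)) : ℝ) - a (σ i))
        (((σ (i + 1) : ℝ) - σ i) * (a (σ i) : ℝ) - ((a (σ (i + 1)) : ℝ) - a (σ i)) * σ i) hx0.ne'
      intro z hz
      rw [Finset.mem_image] at hz
      obtain ⟨t, ht, rfl⟩ := hz
      rw [Finset.mem_range] at ht
      exact hline t ht
  -- the chosen edges
  have hstep : ∀ i, i < r → σ i < σ (i + 1) ∧ a (σ i) < a (σ (i + 1)) := by
    intro i hi
    have h1 := hσ i (i + 1) (by omega) (by omega)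
    exact ⟨h1, hmono _ _ (hσ1 i (by omega)) h1⟩
  have hsum : ∀ z : ℕ → ℕ, (∀ i, i < r → z i < z (i + 1)) → ∀ t, t ≤ r →
      ∑ i ∈ Finset.range t, (z (i + 1) - z i) + z 0 = z t := by
    intro z hz t
    induction t with
    | zero => intro _; simp
    | succ t ih =>
      intro ht
      rw [Finset.sum_range_succ]
      have h1 := ih (by omega)
      have h2 := hz t (by omega)
      omega
  have hsub : ∀ w : ℕ → ℕ, ∑ m ∈ Finset.range M, w (k * m) ≤ ∑ i ∈ Finset.range r, w i := by
    intro w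
    have h1 : ∑ m ∈ Finset.range M, w (k * m) =
        ∑ i ∈ (Finset.range M).image (fun m => k * m), w i := by
      rw [Finset.sum_image]
      intro m _ m' _ hmm
      exact Nat.eq_of_mul_eq_mul_left hk hmm
    rw [h1]
    apply Finset.sum_le_sum_of_subset
    intro i hi
    rw [Finset.mem_image] at hi
    obtain ⟨m, hm, rfl⟩ := hi
    rw [Finset.mem_range] at hm ⊢
    exact hMlt m hm
  have hbox := box M n (a n) (fun m => σ (k * m + 1) - σ (k * m))
    (fun m => a (σ (k * m + 1)) - a (σ (k * m))) hn (hpos n hn) ?_ ?_ ?_ ?_ ?_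
  · calc r ^ 3 ≤ (k * M) ^ 3 := Nat.pow_le_pow_left hMr 3
      _ = k ^ 3 * M ^ 3 := by ring
      _ ≤ k ^ 3 * (27 * n * a n) := Nat.mul_le_mul_left _ hbox
  · intro m hm
    have := (hstep (k * m) (hMlt m hm)).1
    omega
  · intro m hm
    have := (hstep (k * m) (hMlt m hm)).2
    omega
  · have h1 := hsub (fun i => σ (i + 1) - σ i)
    have h2 := hsum σ (fun i hi => (hstep i hi).1) r le_rfl
    omega
  · have h1 := hsub (fun i => a (σ (i + 1)) - a (σ i))
    have h2 := hsum (fun i => a (σ i)) (fun i hi => (hstep i hi).2) r le_rfl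
    have h3 : a (σ r) ≤ a n := by
      rcases Nat.eq_or_lt_of_le hσn with h | h
      · rw [h]
      · exact (hmono _ _ (hσ1 r le_rfl) h).le
    omega
  · -- distinctness
    have hdist : ∀ m m', m < m' → m' < M →
        σ (k * m + 1) - σ (k * m) = σ (k * m' + 1) - σ (k * m') →
        a (σ (k * m + 1)) - a (σ (k * m)) = a (σ (k * m' + 1)) - a (σ (k * m')) → False := by
      intro m m' hmm hm' hx hy
      have h1 : k * m + k ≤ k * m' := by
        have := Nat.mul_le_mul_left k hmm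
        rw [Nat.succ_eq_add_one, mul_add, mul_one] at this
        exact this
      apply hfar (k * m) (k * m') h1 (hMlt m' hm')
      rw [hs, hs]
      obtain ⟨u1, u2⟩ := hstep (k * m) (hMlt m (by omega))
      obtain ⟨u3, u4⟩ := hstep (k * m') (hMlt m' hm')
      have hx' : ((σ (k * m + 1) : ℝ) - σ (k * m)) = (σ (k * m' + 1) : ℝ) - σ (k * m') := by
        have : σ (k * m + 1) + σ (k * m') = σ (k * m' + 1) + σ (k * m) := by omega
        have h2 : ((σ (k * m + 1) + σ (k * m') : ℕ) : ℝ) =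
          ((σ (k * m' + 1) + σ (k * m) : ℕ) : ℝ) := by rw [this]
        push_cast at h2
        linarith
      have hy' : ((a (σ (k * m + 1)) : ℝ) - a (σ (k * m))) =
          (a (σ (k * m' + 1)) : ℝ) - a (σ (k * m')) := by
        have : a (σ (k * m + 1)) + a (σ (k * m')) = a (σ (k * m' + 1)) + a (σ (k * m)) := by omega
        have h2 : ((a (σ (k * m + 1)) + a (σ (k * m')) : ℕ) : ℝ) =
          ((a (σ (k * m' + 1)) + a (σ (k * m)) : ℕ) : ℝ) := by rw [this]
        push_cast at h2
        linarith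
      rw [hx', hy']
    intro m m' hm hm' hx hy
    rcases lt_trichotomy m m' with h | h | h
    · exact (hdist m m' h hm' hx hy).elim
    · exact h
    · exact (hdist m' m h hm hx.symm hy.symm).elim

/-- the size of one arc -/
lemma arc_card (k : ℕ) (hk : 1 ≤ k) (a : ℕ → ℕ) (hpos : ∀ n, 1 ≤ n → 1 ≤ a n)
    (hmono : ∀ m n, 1 ≤ m → m < n → a m < a n)
    (hno : ¬ ∃ T : Finset ℕ, (∀ n ∈ T, 1 ≤ n) ∧ T.card = k ∧ OnALine a T)
    (n : ℕ) (hn : 1 ≤ n) (S : Finset ℕ) (hS : IsArc a S) (hSn : ∀ i ∈ S, 1 ≤ i ∧ i ≤ n) :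
    S.card ^ 3 ≤ 216 * k ^ 3 * (n * a n) := by
  classical
  obtain ⟨r, hr⟩ : ∃ r, r = S.card - 1 := ⟨_, rfl⟩
  have ha : 1 ≤ a n := hpos n hn
  have hbig : 1 ≤ k ^ 3 * (n * a n) :=
    Nat.one_le_iff_ne_zero.mpr (by positivity)
  rcases Nat.lt_or_ge S.card 2 with hc | hc
  · have h1 : S.card ^ 3 ≤ 1 ^ 3 := Nat.pow_le_pow_left (by omega) 3
    calc S.card ^ 3 ≤ 1 ^ 3 := h1
      _ ≤ 216 * (k ^ 3 * (n * a n)) := by omega
      _ = 216 * k ^ 3 * (n * a n) := by ring
  obtain ⟨σ, hσdef⟩ : ∃ σ : ℕ → ℕ, ∀ i (h : i < S.card), σ i = S.orderEmbOfFin rfl ⟨i, h⟩ :=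
    ⟨fun i => if h : i < S.card then S.orderEmbOfFin rfl ⟨i, h⟩ else 0, fun i h => by
      simp only [h, dif_pos]⟩
  have hσmem : ∀ i, i ≤ r → σ i ∈ S := by
    intro i hi
    rw [hσdef i (by omega)]
    exact Finset.orderEmbOfFin_mem _ _ _
  have hσ : ∀ i j, i < j → j ≤ r → σ i < σ j := by
    intro i j hij hj
    rw [hσdef i (by omega), hσdef j (by omega)]
    apply (S.orderEmbOfFin rfl).strictMono
    exact hij
  obtain ⟨s, hs⟩ : ∃ s : ℕ → ℝ,
      ∀ i, s i = ((a (σ (i + 1)) : ℝ) - a (σ i)) / ((σ (i + 1) : ℝ) - σ i) := ⟨_, fun _ => rfl⟩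
  have hP : ∀ i l j, i ≤ l → l ≤ j → j < r → s i = s j → s l = s i := by
    rcases hS with hconv | hconc
    · have hm : ∀ i j, i ≤ j → j < r → s i ≤ s j := by
        intro i j hij
        induction j, hij using Nat.le_induction with
        | base => intro _; exact le_rfl
        | succ j hij ih =>
          intro hj
          refine (ih (by omega)).trans ?_
          rw [hs, hs]
          exact hconv _ (hσmem j (by omega)) _ (hσmem (j + 1) (by omega)) _
            (hσmem (j + 1 + 1) (by omega)) (hσ _ _ (by omega) (by omega))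
            (hσ _ _ (by omega) (by omega))
      intro i l j h1 h2 h3 h4
      have h5 := hm i l h1 (by omega)
      have h6 := hm l j h2 h3
      linarith
    · have hm : ∀ i j, i ≤ j → j < r → s j ≤ s i := by
        intro i j hij
        induction j, hij using Nat.le_induction with
        | base => intro _; exact le_rfl
        | succ j hij ih =>
          intro hj
          refine le_trans ?_ (ih (by omega))
          rw [hs, hs]
          exact hconc _ (hσmem j (by omega)) _ (hσmem (j + 1) (by omega)) _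
            (hσmem (j + 1 + 1) (by omega)) (hσ _ _ (by omega) (by omega))
            (hσ _ _ (by omega) (by omega))
      intro i l j h1 h2 h3 h4
      have h5 := hm i l h1 (by omega)
      have h6 := hm l j h2 h3
      linarith
  have hcore := arc_core k hk a hpos hmono hno n r hn σ hσ
    (fun i hi => (hSn _ (hσmem i hi)).1) (hSn _ (hσmem r le_rfl)).2 s hs hP
  have hr2 : S.card ≤ 2 * r := by omega
  calc S.card ^ 3 ≤ (2 * r) ^ 3 := Nat.pow_le_pow_left hr2 3
    _ = 8 * r ^ 3 := by ring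
    _ ≤ 8 * (k ^ 3 * (27 * n * a n)) := Nat.mul_le_mul_left _ hcore
    _ = 216 * k ^ 3 * (n * a n) := by ring

/-- **Theorem.** Let `1 ≤ a 1 < a 2 < ...` be integers with no `k` collinear points on the graph.
(1) If the points with indices `1, …, n` are covered by `T` convex or concave arcs, then
`n² ≤ 216 (k T)³ a n`.
(2) If this holds for every `n` with `T n` arcs and `∑ (T n)³ / n²` converges, then `∑ 1 / a n`
converges. -/
theorem result (k : ℕ) (hk : 1 ≤ k) (a : ℕ → ℕ) (hpos : ∀ n, 1 ≤ n → 1 ≤ a n)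
    (hmono : ∀ m n, 1 ≤ m → m < n → a m < a n)
    (hno : ¬ ∃ T : Finset ℕ, (∀ n ∈ T, 1 ≤ n) ∧ T.card = k ∧ OnALine a T) :
    (∀ n T : ℕ, 1 ≤ n → CoveredBy a n T → n ^ 2 ≤ 216 * (k * T) ^ 3 * a n) ∧
    (∀ T : ℕ → ℕ, (∀ n, 1 ≤ n → CoveredBy a n (T n)) →
      (Summable fun n : ℕ => (T n : ℝ) ^ 3 / (n : ℝ) ^ 2) →
      Summable fun n : ℕ => 1 / (a n : ℝ)) := by
  classical
  have part1 : ∀ n T : ℕ, 1 ≤ n → CoveredBy a n T → n ^ 2 ≤ 216 * (k * T) ^ 3 * a n := by
    intro n T hn ⟨S, hS, hcov⟩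
    -- restrict the arcs to `[1, n]`
    have harc : ∀ t, ((S t) ∩ Finset.Icc 1 n).card ^ 3 ≤ 216 * k ^ 3 * (n * a n) := by
      intro t
      apply arc_card k hk a hpos hmono hno n hn
      · rcases hS t with h | h
        · left
          intro i hi j hj l hl
          exact h i (Finset.mem_inter.mp hi).1 j (Finset.mem_inter.mp hj).1 l
            (Finset.mem_inter.mp hl).1
        · right
          intro i hi j hj l hl
          exact h i (Finset.mem_inter.mp hi).1 j (Finset.mem_inter.mp hj).1 l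
            (Finset.mem_inter.mp hl).1
      · intro i hi
        exact Finset.mem_Icc.mp (Finset.mem_inter.mp hi).2
    -- one arc is long
    obtain ⟨t, ht⟩ : ∃ t, n ≤ T * ((S t) ∩ Finset.Icc 1 n).card := by
      by_contra hcon
      push Not at hcon
      have h1 : Finset.Icc 1 n ⊆ Finset.univ.biUnion (fun t => (S t) ∩ Finset.Icc 1 n) := by
        intro i hi
        have hi' := Finset.mem_Icc.mp hi
        obtain ⟨t, ht⟩ := hcov i hi'.1 hi'.2
        rw [Finset.mem_biUnion]
        exact ⟨t, Finset.mem_univ _, Finset.mem_inter.mpr ⟨ht, hi⟩⟩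
      have h2 := (Finset.card_le_card h1).trans Finset.card_biUnion_le
      rw [Nat.card_Icc, Nat.add_sub_cancel] at h2
      rcases Nat.eq_zero_or_pos T with h0 | h0
      · subst h0
        simp at h2
        omega
      · have h3 : T * ∑ t : Fin T, ((S t) ∩ Finset.Icc 1 n).card ≤ ∑ _t : Fin T, (n - 1) := by
          rw [Finset.mul_sum]
          apply Finset.sum_le_sum
          intro t _
          have := hcon t
          omega
        rw [Finset.sum_const, Finset.card_univ, Fintype.card_fin, smul_eq_mul] at h3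
        have h4 := Nat.le_of_mul_le_mul_left h3 h0
        omega
    have h1 := harc t
    have h2 : n ^ 3 ≤ T ^ 3 * (216 * k ^ 3 * (n * a n)) := by
      calc n ^ 3 ≤ (T * ((S t) ∩ Finset.Icc 1 n).card) ^ 3 := Nat.pow_le_pow_left ht 3
        _ = T ^ 3 * ((S t) ∩ Finset.Icc 1 n).card ^ 3 := by ring
        _ ≤ T ^ 3 * (216 * k ^ 3 * (n * a n)) := Nat.mul_le_mul_left _ h1
    have h3 : n ^ 2 * n ≤ (216 * (k * T) ^ 3 * a n) * n := by
      calc n ^ 2 * n = n ^ 3 := by ring
        _ ≤ T ^ 3 * (216 * k ^ 3 * (n * a n)) := h2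
        _ = (216 * (k * T) ^ 3 * a n) * n := by ring
    exact Nat.le_of_mul_le_mul_right h3 hn
  refine ⟨part1, ?_⟩
  intro T hT hsum
  rw [← summable_nat_add_iff 1]
  have hsum' : Summable fun n : ℕ => (216 * (k : ℝ) ^ 3) *
      ((T (n + 1) : ℝ) ^ 3 / ((n + 1 : ℕ) : ℝ) ^ 2) :=
    ((summable_nat_add_iff 1).mpr hsum).mul_left _
  refine Summable.of_nonneg_of_le (fun n => by positivity) ?_ hsum'
  intro n
  have h1 := part1 (n + 1) (T (n + 1)) (by omega) (hT (n + 1) (by omega))
  have h2 : (((n + 1 : ℕ) : ℝ)) ^ 2 ≤ 216 * (k * T (n + 1)) ^ 3 * a (n + 1) := by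
    exact_mod_cast h1
  have h3 : (0 : ℝ) < a (n + 1) := by
    have := hpos (n + 1) (by omega)
    exact_mod_cast this
  have h4 : (0 : ℝ) < ((n + 1 : ℕ) : ℝ) ^ 2 := by positivity
  rw [div_le_iff₀ h3]
  have h5 : 216 * (k : ℝ) ^ 3 * ((T (n + 1) : ℝ) ^ 3 / ((n + 1 : ℕ) : ℝ) ^ 2) * a (n + 1) =
      (216 * (k * T (n + 1)) ^ 3 * a (n + 1)) / ((n + 1 : ℕ) : ℝ) ^ 2 := by
    field_simp
  rw [h5, le_div_iff₀ h4, one_mul]
  exact h2

end Pool.Agent.Results.MP_029ce3_co.ConvexArcs
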